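import Pool.Agent.W278.EM.Stms
import Pool.Agent.Helper873.Block

set_option autoImplicit false
open MeasureTheory Finset
open scoped ComplexConjugate

namespace Pool.Agent.W74.EM.G1

open Pool.Agent.Helper873.OneVar Pool.Agent.Helper873.Product Pool.Agent.Helper873.Monomial
  Pool.Agent.Helper873.Alg Pool.Agent.Helper873.NT Pool.Agent.Helper873.Pk Pool.Agent.W278.EM
  Pool.Agent.Helper873.Block

lemma integral_zet_pow_eq (a b : ℕ) :
    ∫ w, zet w ^ a * conj (zet w ^ b) ∂mu = if a = b then 1 else 0 := by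
  split_ifs with h
  · subst h
    have e : ∀ w, zet w ^ a * conj (zet w ^ a) = 1 := by
      intro w
      rw [Complex.mul_conj, Complex.normSq_eq_norm_sq, norm_pow, norm_zet]
      simp
    simp_rw [e]
    simp
  · exact integral_zet_pow a b h

lemma integrable_contC {f : UnitAddCircle → ℂ} (hf : Continuous f) : Integrable f mu :=
  hf.integrable_of_hasCompactSupport (HasCompactSupport.of_compactSpace f)

/-- coefficients of the exponential -/
lemma coef (a : ℂ) (j : ℕ) :
    ∫ w, Complex.exp (a * zet w) * conj (zet w ^ j) ∂mu = a ^ j / (j.factorial : ℂ) := by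
  have h1 : ∀ w, Complex.exp (a * zet w) * conj (zet w ^ j)
      = ∑' k : ℕ, a ^ k / (k.factorial : ℂ) * (zet w ^ k * conj (zet w ^ j)) := by
    intro w
    rw [Complex.exp_eq_exp_ℂ, NormedSpace.exp_eq_tsum_div, ← tsum_mul_right]
    refine tsum_congr fun k => ?_
    rw [mul_pow]
    ring
  simp_rw [h1]
  have h2 : HasSum (fun k : ℕ => ∫ w, a ^ k / (k.factorial : ℂ) * (zet w ^ k * conj (zet w ^ j)) ∂mu)
      (∫ w, (∑' k : ℕ, a ^ k / (k.factorial : ℂ) * (zet w ^ k * conj (zet w ^ j))) ∂mu) := by
    refine hasSum_integral_of_summable_integral_norm (fun k => ?_) ?_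
    · refine integrable_contC (continuous_const.mul ((continuous_zet.pow k).mul ?_))
      exact Complex.continuous_conj.comp (continuous_zet.pow j)
    · have e : ∀ k : ℕ, ∫ w, ‖a ^ k / (k.factorial : ℂ) * (zet w ^ k * conj (zet w ^ j))‖ ∂mu
          = ‖a‖ ^ k / (k.factorial : ℝ) := by
        intro k
        have e2 : ∀ w, ‖a ^ k / (k.factorial : ℂ) * (zet w ^ k * conj (zet w ^ j))‖
            = ‖a‖ ^ k / (k.factorial : ℝ) := by
          intro w
          rw [norm_mul, norm_mul, RCLike.norm_conj, norm_pow, norm_pow, norm_zet, norm_div,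
            norm_pow]
          simp
        simp_rw [e2]
        simp
      simp_rw [e]
      exact Real.summable_pow_div_factorial ‖a‖
  rw [← h2.tsum_eq, tsum_eq_single j]
  · rw [integral_const_mul, integral_zet_pow_eq, if_pos rfl, mul_one]
  · intro k hk
    rw [integral_const_mul, integral_zet_pow_eq, if_neg hk, mul_zero]

/-- second moment of the exponential -/
lemma moment (a : ℂ) : ∫ w, Real.exp (2 * (a * zet w).re) ∂mu ≤ Real.exp (‖a‖ ^ 2) := by
  have h0 : ∀ w, ((Real.exp (2 * (a * zet w).re) : ℝ) : ℂ)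
      = ∑' k : ℕ, conj (a ^ k / (k.factorial : ℂ)) *
        (Complex.exp (a * zet w) * conj (zet w ^ k)) := by
    intro w
    have h1 : ((Real.exp (2 * (a * zet w).re) : ℝ) : ℂ)
        = Complex.exp (a * zet w) * conj (Complex.exp (a * zet w)) := by
      rw [Complex.mul_conj, Complex.normSq_eq_norm_sq, Complex.norm_exp, ← Real.exp_nat_mul]
      norm_num
    rw [h1]
    have h2 : conj (Complex.exp (a * zet w))
        = ∑' k : ℕ, conj (a ^ k / (k.factorial : ℂ)) * conj (zet w ^ k) := by
      conv_lhs => rw [Complex.exp_eq_exp_ℂ, NormedSpace.exp_eq_tsum_div]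
      rw [Complex.conj_tsum]
      refine tsum_congr fun k => ?_
      rw [mul_pow, ← map_mul]
      congr 1
      ring
    rw [h2, ← tsum_mul_left]
    refine tsum_congr fun k => ?_
    ring
  have h2 : HasSum (fun k : ℕ => ∫ w, conj (a ^ k / (k.factorial : ℂ)) *
        (Complex.exp (a * zet w) * conj (zet w ^ k)) ∂mu)
      (∫ w, (∑' k : ℕ, conj (a ^ k / (k.factorial : ℂ)) *
        (Complex.exp (a * zet w) * conj (zet w ^ k))) ∂mu) := by
    refine hasSum_integral_of_summable_integral_norm (fun k => ?_) ?_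
    · refine integrable_contC (continuous_const.mul (Continuous.mul ?_ ?_))
      · exact Complex.continuous_exp.comp (continuous_const.mul continuous_zet)
      · exact Complex.continuous_conj.comp (continuous_zet.pow k)
    · have hle : ∀ k : ℕ, ∫ w, ‖conj (a ^ k / (k.factorial : ℂ)) *
          (Complex.exp (a * zet w) * conj (zet w ^ k))‖ ∂mu
          ≤ ‖a‖ ^ k / (k.factorial : ℝ) * Real.exp ‖a‖ := by
        intro k
        have e2 : ∀ w, ‖conj (a ^ k / (k.factorial : ℂ)) *
          (Complex.exp (a * zet w) * conj (zet w ^ k))‖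
            ≤ ‖a‖ ^ k / (k.factorial : ℝ) * Real.exp ‖a‖ := by
          intro w
          rw [norm_mul, norm_mul, RCLike.norm_conj, RCLike.norm_conj, norm_pow, norm_zet, norm_div,
            norm_pow, Complex.norm_exp, one_pow, mul_one, Complex.norm_natCast]
          refine mul_le_mul_of_nonneg_left (Real.exp_le_exp.2 ?_) (by positivity)
          refine (Complex.re_le_norm _).trans ?_
          rw [norm_mul, norm_zet, mul_one]
        have h3 := integral_mono (μ := mu) (f := fun w => ‖conj (a ^ k / (k.factorial : ℂ)) *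
          (Complex.exp (a * zet w) * conj (zet w ^ k))‖)
          (g := fun _ => ‖a‖ ^ k / (k.factorial : ℝ) * Real.exp ‖a‖) ?_ (integrable_const _) e2
        · simpa using h3
        · refine (integrable_contC (continuous_const.mul (Continuous.mul ?_ ?_))).norm
          · exact Complex.continuous_exp.comp (continuous_const.mul continuous_zet)
          · exact Complex.continuous_conj.comp (continuous_zet.pow k)
      refine Summable.of_nonneg_of_le (fun k => integral_nonneg fun w => norm_nonneg _) hle ?_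
      exact (Real.summable_pow_div_factorial ‖a‖).mul_right _
  simp_rw [← h0, integral_const_mul, coef] at h2
  have h3 : ∀ k : ℕ, conj (a ^ k / (k.factorial : ℂ)) * (a ^ k / (k.factorial : ℂ))
      = (((‖a‖ ^ 2) ^ k / ((k.factorial : ℝ) ^ 2) : ℝ) : ℂ) := by
    intro k
    rw [mul_comm, Complex.mul_conj, Complex.normSq_eq_norm_sq, norm_div, norm_pow,
      Complex.norm_natCast, div_pow, ← pow_mul, ← pow_mul, mul_comm k 2]
  simp_rw [h3] at h2
  rw [integral_complex_ofReal] at h2
  have h4 := Complex.hasSum_ofReal.1 h2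
  have h5 : HasSum (fun k : ℕ => (‖a‖ ^ 2) ^ k / (k.factorial : ℝ)) (Real.exp (‖a‖ ^ 2)) := by
    rw [Real.exp_eq_exp_ℝ]
    exact NormedSpace.expSeries_div_hasSum_exp (‖a‖ ^ 2)
  refine hasSum_le (fun k => ?_) h4 h5
  have h6 : (1 : ℝ) ≤ (k.factorial : ℝ) := by exact_mod_cast Nat.one_le_iff_ne_zero.2 k.factorial_ne_zero
  refine div_le_div_of_nonneg_left (by positivity) (by positivity) ?_
  nlinarith

/-- product formula for real functions -/
lemma integral_prodR (h : ℕ → UnitAddCircle → ℝ) (hh : ∀ k, Continuous (h k)) (N : ℕ) :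
    ∫ z, ∏ k ∈ range N, h k (z k) ∂tor = ∏ k ∈ range N, ∫ w, h k w ∂mu := by
  have h1 := indep (fun _ => 1) continuous_const 0 (fun _ _ _ => rfl) h hh N (Nat.zero_le _)
  simp only [one_mul, ← Finset.range_eq_Ico] at h1
  rw [h1]
  simp

lemma norm_vs_sq (s : ℂ) (k : ℕ) : ‖vs s k‖ ^ 2 = pr k ^ (-(2 * s.re)) := by
  unfold vs pr
  rw [Complex.norm_natCast_cpow_of_pos (Nat.prime_nth_prime k).pos, ← Real.rpow_natCast,
    ← Real.rpow_mul (Nat.cast_nonneg _)]
  congr 1
  simp
  ring

theorem sg1 : SG1 := by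
  intro b m τ hb
  have e1 : ∀ z : TT, ‖gb b m τ (zz z)‖ ^ (2 / b) = Real.exp (-(2 * Hm m)) *
      ∏ k ∈ range (nn m), Real.exp (2 * (conj (vs (pt 0 0 τ) k) * zet (z k)).re) := by
    intro z
    unfold gb zz
    rw [Complex.norm_exp, ← Real.exp_mul, ← Real.exp_sum, ← Real.exp_add]
    congr 1
    rw [Complex.re_ofReal_mul, Complex.sub_re, Complex.ofReal_re, Complex.re_sum,
      ← Finset.mul_sum]
    field_simp
    ring
  simp_rw [e1]
  rw [integral_const_mul, integral_prodR (fun k w => Real.exp (2 * (conj (vs (pt 0 0 τ) k) *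
    zet w).re))]
  · have h2 : ∏ k ∈ range (nn m), ∫ w, Real.exp (2 * (conj (vs (pt 0 0 τ) k) * zet w).re) ∂mu
        ≤ ∏ k ∈ range (nn m), Real.exp (1 / pr k) := by
      refine Finset.prod_le_prod (fun k _ => integral_nonneg fun w => (Real.exp_pos _).le)
        fun k _ => ?_
      refine (moment _).trans (Real.exp_le_exp.2 ?_)
      rw [RCLike.norm_conj, norm_vs_sq]
      have : (pt 0 0 τ).re = 1 / 2 := by simp [pt]
      rw [this]
      norm_num
      rw [Real.rpow_neg_one]
    calc Real.exp (-(2 * Hm m)) * ∏ k ∈ range (nn m),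
          ∫ w, Real.exp (2 * (conj (vs (pt 0 0 τ) k) * zet w).re) ∂mu
        ≤ Real.exp (-(2 * Hm m)) * ∏ k ∈ range (nn m), Real.exp (1 / pr k) :=
          mul_le_mul_of_nonneg_left h2 (Real.exp_pos _).le
      _ = Real.exp (-Hm m) := by
          rw [← Real.exp_sum, ← Real.exp_add]
          congr 1
          unfold Hm
          ring
  · intro k
    exact Real.continuous_exp.comp (continuous_const.mul (Complex.continuous_re.comp
      (continuous_const.mul continuous_zet)))

theorem sk2_of (h : SN4) : SK2 := by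
  obtain ⟨C, hC0, hC⟩ := h
  refine ⟨C, hC0, fun l x t hx => ?_⟩
  have hl : (1 : ℝ) ≤ 2 ^ l := one_le_pow₀ (by norm_num)
  have hre : (pt l x t).re = 1 / 2 + x / 2 ^ l := by
    unfold pt
    rw [Complex.add_re, Complex.ofReal_re]
    simp
  have hx4 : -(1 / 4) ≤ x / 2 ^ l := by
    rw [le_div_iff₀ (by positivity)]
    nlinarith
  have hlt : ∀ k, ‖vs (pt l x t) k‖ < 1 := by
    intro k
    have h1 := norm_vs_sq (pt l x t) k
    have h2 : pr k ^ (-(2 * (pt l x t).re)) < 1 := by
      refine Real.rpow_lt_one_of_one_lt_of_neg ?_ ?_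
      · unfold pr
        exact_mod_cast (Nat.prime_nth_prime k).one_lt
      · rw [hre]; linarith
    rw [← h1] at h2
    by_contra hcon
    push Not at hcon
    nlinarith
  have e1 : ∀ z : TT, ‖kc (nn l) (vs (pt l x t)) z‖ ^ 2 = ∏ k ∈ range (nn l),
      ((1 - ‖vs (pt l x t) k‖ ^ 2)⁻¹ * pk (conj (vs (pt l x t) k)) (z k)) := by
    intro z
    unfold kc
    rw [norm_prod, ← Finset.prod_pow]
    refine Finset.prod_congr rfl fun k _ => ?_
    unfold pk
    rw [RCLike.norm_conj, norm_inv]
    have h1 : ‖1 - vs (pt l x t) k * conj (zet (z k))‖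
        = ‖1 - conj (vs (pt l x t) k) * zet (z k)‖ := by
      rw [← RCLike.norm_conj (1 - vs (pt l x t) k * conj (zet (z k)))]
      simp
    rw [h1]
    have h2 : 1 - ‖vs (pt l x t) k‖ ^ 2 ≠ 0 := by
      have := hlt k
      have h3 := norm_nonneg (vs (pt l x t) k)
      nlinarith
    field_simp
  simp_rw [e1]
  rw [integral_prodR (fun k w => (1 - ‖vs (pt l x t) k‖ ^ 2)⁻¹ *
    pk (conj (vs (pt l x t) k)) w)]
  · have e2 : ∀ k, ∫ w, (1 - ‖vs (pt l x t) k‖ ^ 2)⁻¹ * pk (conj (vs (pt l x t) k)) w ∂mu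
        = (1 - pr k ^ (-(1 + 2 * x / 2 ^ l)))⁻¹ := by
      intro k
      rw [integral_const_mul, integral_pk (by rw [RCLike.norm_conj]; exact hlt k), mul_one,
        norm_vs_sq, hre]
      congr 3
      ring
    simp_rw [e2]
    exact hC l x hx
  · intro k
    exact continuous_const.mul (continuous_pk (by rw [RCLike.norm_conj]; exact hlt k))

end Pool.Agent.W74.EM.G1
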